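import Pool.Agent.W97.KE.Stm

/-!
# Project KE: smoothness of the Galois action on the Selmer group
-/

set_option autoImplicit false

open Topology
open scoped Classical

namespace Pool.Agent.W699.KE

open Pool.Agent.W97.KE

instance isAlg : Algebra.IsAlgebraic ℚ Qb := by
  have h := AlgebraicClosure.isAlgebraic ℚ
  have e : (AlgebraicClosure.instAlgebra ℚ : Algebra ℚ Qb) = DivisionRing.toRatAlgebra :=
    Subsingleton.elim _ _
  rw [e] at h
  exact h

instance isNorm : Normal ℚ Qb := by
  constructor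
  intro x
  exact IsAlgClosed.splits _

instance isGal : IsGalois ℚ Qb where

/-- the value of a cocycle at one -/
theorem coc_one {W : WeierstrassCurve ℤ} {p m : ℕ} {c : H p m → Pt W Qb}
    (hc : IsCocycle W p m c) : c 1 = 0 := by
  have h := hc.mul 1 1
  rw [mul_one] at h
  have h2 : act W (1 : H p m).1 (c 1) = c 1 := act_one W (c 1)
  rw [h2] at h
  exact left_eq_add.1 h

/-- conjugation of a cocycle by an element of the group -/
theorem cact_inner {W : WeierstrassCurve ℤ} {p m : ℕ} {c : H p m → Pt W Qb}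
    (hc : IsCocycle W p m c) (h g : H p m) :
    cact W p m h.1 c g = c g + (act W g.1 (c h) - c h) := by
  have e1 : cact W p m h.1 c g = act W h.1 (c (h⁻¹ * g * h)) :=
    cact_apply W p m h.1 c g (h⁻¹ * g * h) rfl
  have e2 : c (h * (h⁻¹ * g * h)) = c h + act W h.1 (c (h⁻¹ * g * h)) := hc.mul h _
  have e3 : h * (h⁻¹ * g * h) = g * h := by group
  have e4 : c (g * h) = c g + act W g.1 (c h) := hc.mul g h
  rw [e3, e4] at e2
  rw [e1]
  have : act W h.1 (c (h⁻¹ * g * h)) = c g + act W g.1 (c h) - c h := by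
    rw [e2]; abel
  rw [this]
  abel

theorem selAct_mk (W : WeierstrassCurve ℤ) (p m : ℕ) (h : GQ) (c : ZSel W p m) :
    selAct W p m h (QuotientAddGroup.mk c)
      = QuotientAddGroup.mk ⟨cact W p m h c.1, cact_mem_ZSel W p m h c.2⟩ := rfl

theorem selAct_mul (W : WeierstrassCurve ℤ) (p m : ℕ) (h h' : GQ) (a : Sel W p m) :
    selAct W p m (h * h') a = selAct W p m h (selAct W p m h' a) := by
  obtain ⟨c, rfl⟩ := QuotientAddGroup.mk_surjective a
  rw [selAct_mk, selAct_mk, selAct_mk]
  congr 2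
  exact cact_mul W p m h h' c.1

theorem selAct_one (W : WeierstrassCurve ℤ) (p m : ℕ) (a : Sel W p m) :
    selAct W p m 1 a = a := by
  obtain ⟨c, rfl⟩ := QuotientAddGroup.mk_surjective a
  rw [selAct_mk]
  congr 2
  exact cact_one W p m c.1

/-- the action of `Gal(ℚ̄/K_{m,∞})` on the Selmer group is trivial -/
theorem s_inner : S_INNER := by
  intro W p m h hh a
  obtain ⟨c, rfl⟩ := QuotientAddGroup.mk_surjective a
  rw [selAct_mk]
  apply QuotientAddGroup.eq.2
  rw [AddSubgroup.mem_addSubgroupOf]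
  refine ⟨-(c.1 ⟨h, hh⟩), ?_, fun g => ?_⟩
  · obtain ⟨k, hk⟩ := c.2.1.tors ⟨h, hh⟩
    exact ⟨k, by rw [smul_neg, hk, neg_zero]⟩
  · have e := cact_inner c.2.1 ⟨h, hh⟩ g
    change -(cact W p m h c.1 g) + c.1 g = _
    rw [show cact W p m h c.1 g = c.1 g + (act W g.1 (c.1 ⟨h, hh⟩) - c.1 ⟨h, hh⟩) from e, map_neg]
    abel

/-- the stabilizer of an algebraic number is open -/
theorem open_fix (x : Qb) : IsOpen {g : GQ | g x = x} :=
  stabilizer_isOpen_of_isIntegral (K := ℚ) (L := Qb) x

theorem closed_fix (x : Qb) : IsClosed {g : GQ | g x = x} := by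
  have h : IsOpen (MulAction.stabilizer GQ x : Set GQ) :=
    stabilizer_isOpen_of_isIntegral (K := ℚ) (L := Qb) x
  exact OpenSubgroup.isClosed ⟨MulAction.stabilizer GQ x, h⟩

theorem isClosed_F (N : ℕ) : IsClosed {g : GQ | ∀ z : Qb, z ^ N = 1 → g z = z} := by
  have : {g : GQ | ∀ z : Qb, z ^ N = 1 → g z = z}
      = ⋂ (z : Qb) (_ : z ^ N = 1), {g : GQ | g z = z} := by
    ext g
    simp
  rw [this]
  exact isClosed_iInter (fun z => isClosed_iInter (fun _ => closed_fix z))

theorem H_eq (p m : ℕ) : (H p m : Set GQ)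
    = ⋂ n : ℕ, {g : GQ | ∀ z : Qb, z ^ (m * p ^ (n + 1)) = 1 → g z = z} := by
  ext g
  rw [Set.mem_iInter]
  rfl

theorem isClosed_H (p m : ℕ) : IsClosed (H p m : Set GQ) := by
  rw [H_eq]
  exact isClosed_iInter (fun n => isClosed_F _)

instance (p m : ℕ) : CompactSpace (H p m) :=
  isCompact_iff_compactSpace.1 (isClosed_H p m).isCompact

/-- the stabilizer of a point is a neighbourhood of one -/
theorem nhds_act (W : WeierstrassCurve ℤ) (P : Pt W Qb) : {g : GQ | act W g P = P} ∈ 𝓝 (1 : GQ) := by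
  cases P with
  | zero => exact Filter.univ_mem' (fun g => rfl)
  | some x y h =>
    have h1 : {g : GQ | g x = x} ∈ 𝓝 (1 : GQ) := (open_fix x).mem_nhds rfl
    have h2 : {g : GQ | g y = y} ∈ 𝓝 (1 : GQ) := (open_fix y).mem_nhds rfl
    filter_upwards [h1, h2] with g hx hy
    have hx' : g x = x := hx
    have hy' : g y = y := hy
    unfold act mapPt
    rw [WeierstrassCurve.Affine.Point.map_some]
    congr 1

theorem s_smooth : S_SMOOTH := by
  intro W p m hp hm a
  obtain ⟨c, rfl⟩ := QuotientAddGroup.mk_surjective a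
  have hc := c.2.1
  have hfin : (Set.range c.1).Finite := hc.cont.range_finite
  constructor
  · -- torsion
    choose k hk using hc.tors
    have : ∃ K : ℕ, ∀ P ∈ Set.range c.1, p ^ K • P = 0 := by
      have key : ∀ s : Set (Pt W Qb), s.Finite → s ⊆ Set.range c.1 →
          ∃ K : ℕ, ∀ P ∈ s, p ^ K • P = 0 := by
        intro s hs
        induction s, hs using Set.Finite.induction_on with
        | empty => exact fun _ => ⟨0, fun P hP => absurd hP (Set.notMem_empty P)⟩
        | insert _ _ ih =>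
          intro hsub
          obtain ⟨K, hK⟩ := ih ((Set.subset_insert _ _).trans hsub)
          obtain ⟨g, hg⟩ := hsub (Set.mem_insert _ _)
          refine ⟨K + k g, fun P hP => ?_⟩
          rcases Set.mem_insert_iff.1 hP with rfl | hP
          · rw [pow_add, mul_smul, ← hg, hk g, smul_zero]
          · rw [pow_add, mul_comm, mul_smul, hK P hP, smul_zero]
      exact key _ hfin subset_rfl
    obtain ⟨K, hK⟩ := this
    refine ⟨K, ?_⟩
    rw [← QuotientAddGroup.mk_nsmul]
    have e : p ^ K • c = 0 := by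
      apply Subtype.ext
      funext g
      exact hK _ ⟨g, rfl⟩
    rw [e]
    rfl
  · -- smoothness
    -- a neighbourhood of one on which everything is trivial
    have n1 : ∀ P ∈ Set.range c.1, {g : GQ | act W g P = P} ∈ 𝓝 (1 : GQ) := fun P _ => nhds_act W P
    have n2 : (⋂ P ∈ Set.range c.1, {g : GQ | act W g P = P}) ∈ 𝓝 (1 : GQ) :=
      (Filter.biInter_mem hfin).2 n1
    have o3 : IsOpen (c.1 ⁻¹' {0}) := hc.cont {0}
    obtain ⟨V, hV, hVe⟩ := isOpen_induced_iff.1 o3
    have n3 : V ∈ 𝓝 (1 : GQ) := by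
      apply hV.mem_nhds
      have h1 : (1 : H p m) ∈ c.1 ⁻¹' {0} := coc_one hc
      rw [← hVe] at h1
      exact h1
    obtain ⟨O, hO, hOo, hO1⟩ := mem_nhds_iff.1 (Filter.inter_mem n2 n3)
    obtain ⟨U, hU⟩ := ProfiniteGrp.exist_openNormalSubgroup_sub_open_nhds_of_one hOo hO1
    have hUfix : ∀ u ∈ U, ∀ g : H p m, act W u (c.1 g) = c.1 g := by
      intro u hu g
      have := (hO (hU hu)).1
      rw [Set.mem_iInter₂] at this
      exact this (c.1 g) ⟨g, rfl⟩
    have hUz : ∀ g : H p m, g.1 ∈ U → c.1 g = 0 := by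
      intro g hg
      have h1 : g.1 ∈ V := (hO (hU hg)).2
      have h2 : g ∈ Subtype.val ⁻¹' V := h1
      rw [hVe] at h2
      exact h2
    have hUN : (U : Subgroup GQ).Normal := U.isNormal'
    -- elements of `U` fix the cocycle
    have fixU : ∀ h ∈ U, selAct W p m h (QuotientAddGroup.mk c) = QuotientAddGroup.mk c := by
      intro h hh
      rw [selAct_mk]
      congr 1
      apply Subtype.ext
      funext g
      have m1 : (h⁻¹ * g.1 * h) ∈ H p m := by
        simpa using (inferInstance : (H p m).Normal).conj_mem g.1 g.2 h⁻¹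
      have e1 : cact W p m h c.1 g = act W h (c.1 ⟨_, m1⟩) := cact_apply W p m h c.1 g ⟨_, m1⟩ rfl
      change cact W p m h c.1 g = c.1 g
      rw [e1, hUfix h hh]
      have e2 : (⟨_, m1⟩ : H p m) = g * (g⁻¹ * ⟨_, m1⟩) := by group
      rw [e2, hc.mul]
      have e3 : c.1 (g⁻¹ * ⟨_, m1⟩) = 0 := by
        apply hUz
        change g.1⁻¹ * (h⁻¹ * g.1 * h) ∈ (U : Subgroup GQ)
        have e4 : g.1⁻¹ * (h⁻¹ * g.1 * h) = (g.1⁻¹ * h⁻¹ * g.1⁻¹⁻¹) * h := by group
        rw [e4]
        exact (U : Subgroup GQ).mul_mem (hUN.conj_mem _ ((U : Subgroup GQ).inv_mem hh) g.1⁻¹) hh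
      rw [e3, map_zero, add_zero]
    -- the stabilizer of the class
    let T : Subgroup GQ :=
      { carrier := {h | selAct W p m h (QuotientAddGroup.mk c) = QuotientAddGroup.mk c}
        mul_mem' := by
          intro x y hx hy
          change selAct W p m (x * y) _ = _
          rw [selAct_mul]
          rw [show selAct W p m y (QuotientAddGroup.mk c) = _ from hy]
          exact hx
        one_mem' := selAct_one W p m _
        inv_mem' := by
          intro x hx
          change selAct W p m x⁻¹ _ = _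
          have h1 : selAct W p m x (QuotientAddGroup.mk c) = QuotientAddGroup.mk c := hx
          conv_lhs => rw [← h1]
          rw [← selAct_mul, inv_mul_cancel, selAct_one] }
    have hTU : (U : Subgroup GQ) ≤ T := fun h hh => fixU h hh
    have hTo : IsOpen (T : Set GQ) := Subgroup.isOpen_mono hTU U.isOpen'
    have hTH : H p m ≤ T := fun h hh => s_inner W p m h hh _
    obtain ⟨n, hn⟩ := exists_subset_nhds_of_isCompact
      (V := fun n : ℕ => {g : GQ | ∀ z : Qb, z ^ (m * p ^ (n + 1)) = 1 → g z = z})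
      (U := (T : Set GQ)) (by
        apply directed_of_isDirected_le
        intro i j hij g hg z hz
        apply hg z
        obtain ⟨d, hd⟩ := pow_dvd_pow p (Nat.succ_le_succ hij)
        rw [Nat.succ_eq_add_one, Nat.succ_eq_add_one] at hd
        rw [hd, ← mul_assoc, pow_mul, hz, one_pow]) (fun n => (isClosed_F _).isCompact) (by
        intro x hx
        rw [← H_eq] at hx
        exact hTo.mem_nhds (hTH hx))
    exact ⟨n, fun h hh => hn hh⟩

end Pool.Agent.W699.KE
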